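import Pool.Agent.TH549.CK.P8

/-!
# CK-9: base change of normality
-/

set_option autoImplicit false

namespace Pool.Agent.TH549.CK

namespace P9b

open Polynomial

/-- a criterion inside a field -/
theorem ic_iff {A L : Type} [CommRing A] [IsDomain A] [Field L] (f : A →+* L)
    (hf : Function.Injective f) : IsIntegrallyClosed A ↔
      ∀ x : L, (∃ r s : A, s ≠ 0 ∧ x * f s = f r) → f.IsIntegralElem x → ∃ y, f y = x := by
  obtain ⟨j, hj⟩ : ∃ j : FractionRing A →+* L, ∀ a, j (algebraMap A (FractionRing A) a) = f a :=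
    ⟨IsFractionRing.lift hf, fun a => IsFractionRing.lift_algebraMap hf a⟩
  have hcomp : j.comp (algebraMap A (FractionRing A)) = f := RingHom.ext hj
  have hinj : Function.Injective j := j.injective
  rw [isIntegrallyClosed_iff (FractionRing A)]
  constructor
  · rintro h x ⟨r, s, hs, hx⟩ ⟨P, hP, hP0⟩
    have hs' : algebraMap A (FractionRing A) s ≠ 0 := by
      rw [Ne, FaithfulSMul.algebraMap_eq_zero_iff]
      exact hs
    have hfs : f s ≠ 0 := by
      rw [← hj]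
      exact fun h0 => hs' (hinj (by rw [h0, map_zero]))
    obtain ⟨z, hz⟩ : ∃ z, z = algebraMap A (FractionRing A) r / algebraMap A (FractionRing A) s :=
      ⟨_, rfl⟩
    have hjz : j z = x := by
      rw [hz, map_div₀, hj, hj, ← hx]
      field_simp
    have hzi : IsIntegral A z := by
      refine ⟨P, hP, ?_⟩
      apply hinj
      rw [Polynomial.hom_eval₂, hcomp, hjz, map_zero]
      exact hP0
    obtain ⟨y, hy⟩ := h hzi
    exact ⟨y, by rw [← hj, hy, hjz]⟩
  · intro h z hz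
    obtain ⟨r, s, hs, hrs⟩ := IsFractionRing.div_surjective (A := A) z
    have hs0 : s ≠ 0 := nonZeroDivisors.ne_zero hs
    have hs' : algebraMap A (FractionRing A) s ≠ 0 := by
      rw [Ne, FaithfulSMul.algebraMap_eq_zero_iff]
      exact hs0
    obtain ⟨P, hP, hP0⟩ := hz
    obtain ⟨y, hy⟩ := h (j z) ⟨r, s, hs0, by
      rw [← hj, ← hj, ← map_mul, ← hrs]
      congr 1
      field_simp⟩ ⟨P, hP, by
      rw [← hcomp, ← Polynomial.hom_eval₂, hP0, map_zero]⟩
    exact ⟨y, hinj (by rw [hj, hy])⟩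

/-- transitivity of integrality -/
theorem ie_trans {A L : Type} [CommRing A] [CommRing L] (φ : A →+* L) (S : Subring L)
    (hφ : ∀ r, φ r ∈ S) (hS : ∀ x ∈ S, φ.IsIntegralElem x) (h : L) (hh : S.subtype.IsIntegralElem h) :
    φ.IsIntegralElem h := by
  let _ : Algebra A S := (φ.codRestrict S hφ).toAlgebra
  let _ : Algebra A L := φ.toAlgebra
  have : IsScalarTower A S L := IsScalarTower.of_algebraMap_eq fun x => rfl
  have : Algebra.IsIntegral A S := ⟨fun x => by
    obtain ⟨P, hP, hP0⟩ := hS x x.2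
    refine ⟨P, hP, ?_⟩
    have hinj : Function.Injective S.subtype := Subtype.val_injective
    apply hinj
    rw [Polynomial.hom_eval₂, map_zero]
    exact hP0⟩
  exact isIntegral_trans (R := A) (A := S) h hh

theorem ie_sum {A L : Type} [CommRing A] [CommRing L] (φ : A →+* L) {ι : Type} (s : Finset ι)
    (f : ι → L) (h : ∀ i ∈ s, φ.IsIntegralElem (f i)) : φ.IsIntegralElem (∑ i ∈ s, f i) := by
  classical
  induction s using Finset.induction_on with
  | empty => simpa using φ.isIntegralElem_zero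
  | insert a s ha ih =>
    rw [Finset.sum_insert ha]
    exact (h a (Finset.mem_insert_self a s)).add φ
      (ih fun i hi => h i (Finset.mem_insert_of_mem hi))

/-- constants are integral -/
theorem ie_const {K Ω A L : Type} [Field K] [Field Ω] [Algebra K Ω] [Algebra.IsAlgebraic K Ω]
    [CommRing A] [CommRing L] (φ : A →+* L) (κ : K →+* A) (c : Ω →+* L)
    (hc : ∀ x, φ (κ x) = c (algebraMap K Ω x)) (e : Ω) : φ.IsIntegralElem (c e) := by
  obtain ⟨P, hP, hP0⟩ := Algebra.IsIntegral.isIntegral (R := K) e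
  refine ⟨P.map κ, hP.map κ, ?_⟩
  rw [Polynomial.eval₂_map]
  have h1 : φ.comp κ = c.comp (algebraMap K Ω) := RingHom.ext hc
  rw [h1, ← Polynomial.hom_eval₂, hP0, map_zero]

/-- the trace argument -/
theorem core {K Ω A L1 L2 : Type} [Field K] [Field Ω] [CommRing A] [Field L1] [Field L2]
    [Algebra K Ω] [CharZero K] [IsAlgClosed Ω] [Algebra.IsAlgebraic K Ω] (ι : L1 →+* L2)
    (κ : K →+* A) (ρ : A →+* L1) (cΩ : Ω →+* L2)
    (hcomp : ∀ x, ι (ρ (κ x)) = cΩ (algebraMap K Ω x))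
    (T : (Ω →ₐ[K] Ω) → (L2 →+* L2)) (hT1 : ∀ τ x, T τ (ι x) = ι x)
    (hT2 : ∀ τ e, T τ (cΩ e) = cΩ (τ e))
    (hcl : ∀ x : L1, (∃ r s : A, ρ s ≠ 0 ∧ x * ρ s = ρ r) → ρ.IsIntegralElem x → ∃ y, ρ y = x)
    {n : ℕ} (e : Fin n → Ω) (r : Fin n → A) (c0 : A) (hc0 : ρ c0 ≠ 0) (h : L2)
    (hh : h * ι (ρ c0) = ∑ l, cΩ (e l) * ι (ρ (r l)))
    (hint : (ι.comp ρ).IsIntegralElem h) :
    ∃ (m : ℕ) (b : Fin m → Ω) (q : Fin m → A), h = ∑ j, cΩ (b j) * ι (ρ (q j)) := by
  classical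
  obtain ⟨E, hE⟩ : ∃ E : IntermediateField K Ω, E = IntermediateField.adjoin K (Set.range e) :=
    ⟨_, rfl⟩
  have he : ∀ l, e l ∈ E := fun l => by
    rw [hE]
    exact IntermediateField.subset_adjoin _ _ ⟨l, rfl⟩
  have : FiniteDimensional K E := by
    rw [hE]
    exact IntermediateField.finiteDimensional_adjoin
      (fun x _ => Algebra.IsIntegral.isIntegral (R := K) x)
  obtain ⟨b, hb⟩ : ∃ b : Module.Basis (Fin (Module.finrank K E)) K E, b = Module.finBasis K E :=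
    ⟨_, rfl⟩
  obtain ⟨d, hd⟩ : ∃ d : Fin (Module.finrank K E) → E,
      ∀ i j, Algebra.trace K E (d i * b j) = if j = i then 1 else 0 := by
    refine ⟨(Algebra.traceForm K E).dualBasis (traceForm_nondegenerate K E) b, fun i j => ?_⟩
    rw [← Algebra.traceForm_apply]
    exact LinearMap.BilinForm.apply_dualBasis_left _ _ _ _
  have hιc : ι (ρ c0) ≠ 0 := by
    rw [Ne, map_eq_zero]
    exact hc0
  obtain ⟨q', hq'⟩ : ∃ q' : Fin (Module.finrank K E) → A,
      ∀ j, q' j = ∑ l, κ (b.repr ⟨e l, he l⟩ j) * r l := ⟨_, fun j => rfl⟩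
  obtain ⟨q, hq⟩ : ∃ q : Fin (Module.finrank K E) → L1, ∀ j, q j = ρ (q' j) / ρ c0 :=
    ⟨_, fun j => rfl⟩
  have hqc : ∀ j, q j * ρ c0 = ρ (q' j) := by
    intro j
    rw [hq]
    field_simp
  have hel : ∀ l, e l = ∑ j, algebraMap K Ω (b.repr ⟨e l, he l⟩ j) * (b j : Ω) := by
    intro l
    have h1 := b.sum_repr ⟨e l, he l⟩
    have h2 := congrArg (fun x : E => (x : Ω)) h1
    refine h2.symm.trans ?_
    push_cast
    refine Finset.sum_congr rfl fun j _ => ?_
    rw [Algebra.smul_def]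
  have hsum : h = ∑ j, cΩ (b j : Ω) * ι (q j) := by
    apply mul_right_cancel₀ hιc
    rw [hh, Finset.sum_mul]
    have h1 : ∀ j, cΩ (b j : Ω) * ι (q j) * ι (ρ c0) =
        ∑ l, cΩ (algebraMap K Ω (b.repr ⟨e l, he l⟩ j) * (b j : Ω)) * ι (ρ (r l)) := by
      intro j
      rw [mul_assoc, ← map_mul, hqc, hq', map_sum, map_sum, Finset.mul_sum]
      refine Finset.sum_congr rfl fun l _ => ?_
      rw [map_mul, map_mul, hcomp, map_mul]
      ring
    rw [Finset.sum_congr rfl fun j _ => h1 j, Finset.sum_comm]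
    refine Finset.sum_congr rfl fun l _ => ?_
    rw [← Finset.sum_mul, ← map_sum, ← hel l]
  have hσ : ∀ σ : E →ₐ[K] Ω, (ι.comp ρ).IsIntegralElem (∑ j, cΩ (σ (b j)) * ι (q j)) := by
    intro σ
    obtain ⟨τ, hτ⟩ := IsAlgClosed.surjective_domRestrict_of_isAlgebraic (K := K) (L := E)
      (M := Ω) (E := Ω) σ
    have hτ' : ∀ x : E, τ (x : Ω) = σ x := by
      intro x
      rw [← hτ]
      rfl
    obtain ⟨P, hP, hP0⟩ := hint
    refine ⟨P, hP, ?_⟩
    have h1 : (T τ).comp (ι.comp ρ) = ι.comp ρ := RingHom.ext fun x => hT1 τ _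
    have h2 : T τ h = ∑ j, cΩ (σ (b j)) * ι (q j) := by
      rw [hsum, map_sum]
      refine Finset.sum_congr rfl fun j _ => ?_
      rw [map_mul, hT1, hT2, hτ']
    rw [← h2, ← h1, ← Polynomial.hom_eval₂, hP0, map_zero]
  have hιq : ∀ k, ι (q k) = ∑ σ : E →ₐ[K] Ω, cΩ (σ (d k)) * ∑ j, cΩ (σ (b j)) * ι (q j) := by
    intro k
    have h1 : ∀ j, ∑ σ : E →ₐ[K] Ω, cΩ (σ (d k)) * (cΩ (σ (b j)) * ι (q j)) =
        (if j = k then 1 else 0) * ι (q j) := by
      intro j
      have h2 : ∀ σ : E →ₐ[K] Ω, cΩ (σ (d k)) * (cΩ (σ (b j)) * ι (q j)) =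
          cΩ (σ (d k * b j)) * ι (q j) := by
        intro σ
        rw [map_mul, map_mul]
        ring
      rw [Finset.sum_congr rfl fun σ _ => h2 σ, ← Finset.sum_mul, ← map_sum,
        ← trace_eq_sum_embeddings Ω, hd]
      split_ifs <;> simp
    simp only [Finset.mul_sum]
    rw [Finset.sum_comm, Finset.sum_congr rfl fun j _ => h1 j]
    simp
  have hqi : ∀ k, ρ.IsIntegralElem (q k) := by
    intro k
    have h1 : (ι.comp ρ).IsIntegralElem (ι (q k)) := by
      rw [hιq]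
      refine ie_sum _ _ _ fun σ _ => ?_
      exact (ie_const (ι.comp ρ) κ cΩ hcomp _).mul (ι.comp ρ) (hσ σ)
    obtain ⟨P, hP, hP0⟩ := h1
    refine ⟨P, hP, ?_⟩
    apply ι.injective
    rw [Polynomial.hom_eval₂, hP0, map_zero]
  have hy : ∀ k, ∃ y, ρ y = q k := fun k => hcl (q k) ⟨q' k, c0, hc0, hqc k⟩ (hqi k)
  choose y hy using hy
  refine ⟨_, fun j => (b j : Ω), y, ?_⟩
  rw [hsum]
  exact Finset.sum_congr rfl fun j _ => by rw [hy]

/-- the coefficientwise map -/
noncomputable def mp {A B : Type} [Field A] [Field B] (f : A →+* B) :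
    LaurentSeries A →+* LaurentSeries B where
  toFun x := HahnSeries.map x f
  map_one' := by
    ext k
    show f ((1 : LaurentSeries A).coeff k) = (1 : LaurentSeries B).coeff k
    rw [HahnSeries.coeff_one, HahnSeries.coeff_one]
    split_ifs <;> simp
  map_mul' x y := HahnSeries.map_mul (f : A →ₙ+* B)
  map_zero' := by
    ext k
    show f ((0 : LaurentSeries A).coeff k) = (0 : LaurentSeries B).coeff k
    simp
  map_add' x y := by
    ext k
    show f ((x + y).coeff k) = (HahnSeries.map x f + HahnSeries.map y f).coeff k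
    rw [HahnSeries.coeff_add, HahnSeries.coeff_add, map_add]
    rfl

theorem coeff_mp {A B : Type} [Field A] [Field B] (f : A →+* B) (x : LaurentSeries A) (k : ℤ) :
    (mp f x).coeff k = f (x.coeff k) := rfl

theorem mp_C {A B : Type} [Field A] [Field B] (f : A →+* B) (a : A) :
    mp f (HahnSeries.C a) = HahnSeries.C (f a) := by
  ext k
  rw [coeff_mp, HahnSeries.C_apply, HahnSeries.C_apply]
  rcases eq_or_ne k 0 with rfl | hk
  · rw [HahnSeries.coeff_single_same, HahnSeries.coeff_single_same]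
  · rw [HahnSeries.coeff_single_of_ne hk, HahnSeries.coeff_single_of_ne hk, map_zero]

end P9b

open P9b in
theorem ext_normal {K Ω : Type} [Field K] [Field Ω] [Algebra K Ω]
    {R : Subalgebra K (LaurentSeries K)} [CharZero K] [IsAlgClosed Ω] [Algebra.IsAlgebraic K Ω]
    (h : IsIntegrallyClosed R) : IsIntegrallyClosed (ext R Ω) := by
  classical
  obtain ⟨ρ, hρ⟩ : ∃ ρ : R →+* LaurentSeries K, ∀ x, ρ x = x := ⟨R.val.toRingHom, fun x => rfl⟩
  have hρi : Function.Injective ρ := fun x y hxy => by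
    rw [hρ, hρ] at hxy
    exact Subtype.ext hxy
  obtain ⟨ι, hι⟩ : ∃ ι : LaurentSeries K →+* LaurentSeries Ω, ι = mp (algebraMap K Ω) := ⟨_, rfl⟩
  have hιc : ∀ x k, (ι x).coeff k = algebraMap K Ω (x.coeff k) := fun x k => by rw [hι, coeff_mp]
  have hmem : ∀ x : R, ι (ρ x) ∈ ext R Ω := fun x =>
    Algebra.subset_adjoin ⟨ρ x, by rw [hρ]; exact x.2, fun k => hιc _ k⟩
  have hcon : ∀ c : Ω, (HahnSeries.C c : LaurentSeries Ω) ∈ ext R Ω := fun c => by
    have h1 : algebraMap Ω (LaurentSeries Ω) c = HahnSeries.C c := LaurentSeries.algebraMap_apply Ω c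
    rw [← h1]
    exact (ext R Ω).algebraMap_mem c
  obtain ⟨κ, hκ⟩ : ∃ κ : K →+* R, ∀ c, ρ (κ c) = HahnSeries.C c := by
    refine ⟨algebraMap K R, fun c => ?_⟩
    rw [hρ]
    exact LaurentSeries.algebraMap_apply K c
  have hcomp : ∀ x, ι (ρ (κ x)) = HahnSeries.C (algebraMap K Ω x) := by
    intro x
    rw [hκ, hι, mp_C]
  -- representation of the elements
  have hrep : ∀ x ∈ ext R Ω, ∃ (n : ℕ) (e : Fin n → Ω) (r : Fin n → R),
      x = ∑ l, HahnSeries.C (e l) * ι (ρ (r l)) := by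
    intro x hx
    have hx' : x ∈ @Submodule.span Ω (LaurentSeries Ω) _ _ Algebra.toModule (P8.gens R Ω) := by
      rw [← P8.ext_span]
      exact hx
    obtain ⟨m, ω, g, hxx⟩ := (@Submodule.mem_span_set' Ω (LaurentSeries Ω) _ _ Algebra.toModule x
      (P8.gens R Ω)).1 hx'
    have hg : ∀ l, ∃ f : R, (g l : LaurentSeries Ω) = ι (ρ f) := by
      intro l
      obtain ⟨f, hf, h⟩ := (g l).2
      refine ⟨⟨f, hf⟩, ?_⟩
      ext k
      rw [h, hιc, hρ]
    choose f hf using hg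
    refine ⟨m, ω, f, ?_⟩
    rw [← hxx]
    refine Finset.sum_congr rfl fun l _ => ?_
    have h1 : algebraMap Ω (LaurentSeries Ω) (ω l) = HahnSeries.C (ω l) :=
      LaurentSeries.algebraMap_apply Ω (ω l)
    rw [← hf, ← h1, ← Algebra.smul_def]
  have hie : ∀ x ∈ ext R Ω, (ι.comp ρ).IsIntegralElem x := by
    intro x hx
    obtain ⟨n, e, r, rfl⟩ := hrep x hx
    refine ie_sum _ _ _ fun l _ => ?_
    exact (ie_const (ι.comp ρ) κ HahnSeries.C hcomp _).mul (ι.comp ρ)
      ((ι.comp ρ).isIntegralElem_map)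
  have hR := (ic_iff ρ hρi).1 h
  obtain ⟨ρ', hρ'⟩ : ∃ ρ' : ext R Ω →+* LaurentSeries Ω, ∀ x, ρ' x = x :=
    ⟨(ext R Ω).val.toRingHom, fun x => rfl⟩
  have hρi' : Function.Injective ρ' := fun x y hxy => by
    rw [hρ', hρ'] at hxy
    exact Subtype.ext hxy
  refine (ic_iff ρ' hρi').2 ?_
  rintro x ⟨p, q, hq, hx⟩ hxi
  -- integrality over the base
  have hxi' : (ι.comp ρ).IsIntegralElem x := by
    refine ie_trans (ι.comp ρ) (ext R Ω).toSubring (fun r => hmem r) (fun y hy => hie y hy) x ?_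
    obtain ⟨P, hP, hP0⟩ := hxi
    refine ⟨P, hP, ?_⟩
    have h1 : (ext R Ω).toSubring.subtype = ρ' := RingHom.ext fun y => (hρ' y).symm
    exact (congrArg (fun f => Polynomial.eval₂ f x P) h1).trans hP0
  -- a common denominator
  obtain ⟨c0, hc0, q', hq'⟩ : ∃ c0 : R, c0 ≠ 0 ∧ ∃ q' : ext R Ω, ρ' q * ρ' q' = ι (ρ c0) := by
    let _ : Algebra R (ext R Ω) := ((ι.comp ρ).codRestrict (ext R Ω) hmem).toAlgebra
    have hq2 : IsIntegral R q := by
      obtain ⟨P, hP, hP0⟩ := hie q q.2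
      refine ⟨P, hP, hρi' ?_⟩
      rw [Polynomial.hom_eval₂, map_zero]
      have h1 : ρ'.comp (algebraMap R (ext R Ω)) = ι.comp ρ := RingHom.ext fun y => hρ' _
      rw [h1, hρ']
      exact hP0
    obtain ⟨y, hy, z, hz⟩ := hq2.isAlgebraic.exists_nonzero_dvd (mem_nonZeroDivisors_of_ne_zero hq)
    refine ⟨y, hy, z, ?_⟩
    rw [← map_mul, ← hz, hρ']
    rfl
  obtain ⟨n, e, r, hr⟩ := hrep ((p * q' : ext R Ω) : LaurentSeries Ω) (p * q').2
  have hρc : ρ c0 ≠ 0 := fun h0 => hc0 (hρi (by rw [h0, map_zero]))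
  obtain ⟨m, b, s, hs⟩ := core ι κ ρ HahnSeries.C hcomp (fun τ => mp τ.toRingHom)
    (fun τ y => by
      ext k
      rw [coeff_mp, hιc]
      exact τ.commutes _)
    (fun τ c => mp_C _ c)
    (fun y hy hy' => by
      obtain ⟨r, s, hs, hrs⟩ := hy
      exact hR y ⟨r, s, fun h0 => hs (by rw [h0, map_zero]), hrs⟩ hy')
    e r c0 hρc x (by
      rw [← hr, ← hq', ← mul_assoc, hx, ← map_mul, hρ']) hxi'
  have hxm : x ∈ ext R Ω := by
    rw [hs]
    exact sum_mem fun j _ => mul_mem (hcon _) (hmem _)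
  exact ⟨⟨x, hxm⟩, hρ' _⟩

end Pool.Agent.TH549.CK
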